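import Pool.Agent.Lib.MP_9214e0_lc.Final

/-!
Equivalence of random generics is not essentially free.

The definitions are in `Pool/Agent/Lib/MP_9214e0_lc/ForcDefs.lean` (countable transitive models,
random forcing of a model, generic filters, names and generic extensions, essential freeness) and
in `Pool/Agent/Lib/MP_9214e0_lc/ZBasic.lean` (natural numbers and reals as sets).

Outline of the proof.  Identify `2^ω` with pairs `(x, z)`, where `x` is a parameter and `z` is a
point of `2^(ℕ⁴)`.  Six explicit coordinate permutations, the last of which depends on `x`, act on
the second coordinate.  They map random reals over `M` to random reals over `M` with the same
generic extension.  A Borel reduction to a free action of a countable group would give, on almost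
every fibre, a cocycle of this action into that group; a spectral gap rigidity theorem (proved
from scratch) untwists it on a commuting part and then on the whole action, so that each parameter
gives three elements of the countable group.  Two parameters with the same three elements are
equal, so only countably many parameters occur, a contradiction.
-/

set_option autoImplicit false

namespace Pool.Agent.Results.MP_9214e0_lc.NotEssentiallyFree

open Pool.Agent.Generics

/-- For every countable transitive model `M` of `ZFC`, the equivalence relation `M[G] = M[H]` on
the `M`-generic filters of the random forcing of `M` is not essentially free. -/
theorem result : ∀ M : Set ZFSet.{0}, IsCTM M → ¬ EssentiallyFree (genEquiv M) :=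
  not_essentiallyFree

end Pool.Agent.Results.MP_9214e0_lc.NotEssentiallyFree
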